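import Mathlib
import Pool.Agent.H72.CG.RealU
import Pool.Graph.R_pool_sql_team_seeded_1acbe0a2.Y866.LK.Page

/-!
# Almost prime tuples `q r_j + 1` in all short intervals, uniformly in the `r_j`: arbitrary labels of primes

Give EVERY prime a label in a finite abelian group `G`, in an arbitrary way, and let the label of a
positive integer be the sum of the labels of its prime factors (with multiplicity). Let `N = |G|`, or
let `G` have exponent `2` and `|G| ≤ 2 ^ (N - 1)`, and let `θ > 1 - 1 / N`. We show, uniformly in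
`r_1, ..., r_ℓ ≤ x ^ E` with `r_i ≤ x ^ δ` for one `i`: every element of `G` is the label of `q r_i + 1` for
at least `x ^ (1 - N (1 - θ) - ε)` integers `q` in `(x, x + x ^ θ]` such that all the `q r_j + 1` are
products of at most `R` primes, all larger than `x ^ δ`. The only condition is the obvious one that the
labels of the primes `p ≡ 1` modulo `q₀ r_i ^ 2`, `x ^ δ < p ≤ x ^ (k δ)`, generate `G`; there are such
primes if `r_i ≤ (log x) ^ A`. In particular, uniformly in the range `r_j ≤ b log x` of the problem, the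
number of prime factors of each member lies in ANY given class modulo `N`, for instance in the class of
`1` (as for the primes which one looks for), in all the intervals `(x, x + x ^ θ]`; see `result_Omega`.

Method (`Pool/Agent/H72/CG`): for rough numbers `V` which are close to one another, a sieve gives many `w`
such that ALL the `V w` are `q r_i + 1` for such `q`, and the labels of the `V w` are all the elements of
`G` if the labels of the `V` are. Such families of `V` are products of pairs `{U, U'}` of neighbouring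
rough numbers `≡ 1` modulo `r_i ^ 2`: for each proper subgroup `H` of `G` some pair has labels which differ
modulo `H`, since otherwise the label modulo `H` would be the same for all the rough numbers from `U` to
`p U`; and if `T ≠ G` is the set of the labels of a family, `H` its stabiliser and the labels `s, s'` of a
pair differ modulo `H`, then `T + {s, s'}` is larger than `T` (and twice as large as `T` if `G` has
exponent `2`).

From the library: the Brun-Hooley sieve, the idea of the chain of neighbouring rough numbers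
(`Pool.Agent.W5h75.SP`, for the group with two elements), and primes in progressions with moduli up to a
power of the logarithm (`Pool.Agent.Y866.LK.page`).
-/

set_option autoImplicit false

open Finset

namespace Pool.Agent.Results.MP_d018b2_nt.LabelledMembers

open Pool.Agent.H72.CG

/-- The `q` in `(x, x + x ^ θ]` such that all the `q r_j + 1` are products of at most `R` primes, all
larger than `x ^ δ`. -/
def AlmostPrimeTuples {ℓ : ℕ} (r : Fin ℓ → ℕ) (θ δ : ℝ) (R : ℕ) (x : ℝ) : Set ℕ :=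
  {q : ℕ | x < q ∧ (q : ℝ) ≤ x + x ^ θ ∧ ∀ j, (q * r j + 1).primeFactorsList.length ≤ R ∧
    ∀ p : ℕ, p.Prime → p ∣ q * r j + 1 → x ^ δ < p}

theorem pow_length_le (y : ℝ) (hy : 0 ≤ y) : ∀ l : List ℕ, (∀ p ∈ l, y ≤ (p : ℝ)) →
    y ^ l.length ≤ ((l.prod : ℕ) : ℝ) := by
  intro l
  induction l with
  | nil => intro _; simp
  | cons p l ih =>
    intro h
    rw [List.length_cons, List.prod_cons, pow_succ, mul_comm, Nat.cast_mul]
    exact mul_le_mul (h p (by simp)) (ih fun q hq => h q (by simp [hq])) (by positivity)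
      (by positivity)

/-- the sum of the labels of the prime factors -/
def lab {G : Type} [AddCommGroup G] (Φ : ℕ → G) (z : ℤ) : G := (z.natAbs.primeFactorsList.map Φ).sum

theorem addG_lab {G : Type} [AddCommGroup G] (Φ : ℕ → G) : AddG (lab Φ) := by
  intro x y hx hy
  unfold lab
  rw [Int.natAbs_mul, ← List.sum_append, ← List.map_append]
  exact ((Nat.perm_primeFactorsList_mul (Int.natAbs_ne_zero.2 hx)
    (Int.natAbs_ne_zero.2 hy)).map Φ).sum_eq

theorem lab_prime {G : Type} [AddCommGroup G] (Φ : ℕ → G) (p : ℕ) (hp : p.Prime) :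
    lab Φ (p : ℤ) = Φ p := by
  unfold lab
  rw [Int.natAbs_natCast, Nat.primeFactorsList_prime hp]
  simp

theorem eq_of_dvd_sub {p a b : ℕ} (ha : a < p) (hb : b < p) (h : (p : ℤ) ∣ (a : ℤ) - b) : a = b := by
  have h4 : (b : ℤ) ≡ a [ZMOD p] := (Int.modEq_iff_dvd).2 h
  have h5 : b ≡ a [MOD p] := (Int.natCast_modEq_iff).1 h4
  exact (Nat.ModEq.eq_of_lt_of_lt h5 hb ha).symm

/-- the classes of `n = r_i q + 1` modulo `p` for which `p` divides some `q r_j + 1` -/
def Bd {ℓ : ℕ} (r : Fin ℓ → ℕ) (i : Fin ℓ) (p : ℕ) : Finset ℤ :=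
  if p ∣ r i then ∅ else
    (univ : Finset (Fin ℓ)).biUnion (fun j => ((range p).filter
      (fun e : ℕ => (p : ℤ) ∣ r j * ((e : ℤ) - 1) + r i)).image (fun e : ℕ => (e : ℤ)))

theorem Bd_card {ℓ : ℕ} (r : Fin ℓ → ℕ) (i : Fin ℓ) (p : ℕ) (hp : p.Prime) :
    (Bd r i p).card ≤ ℓ := by
  unfold Bd
  split_ifs with h
  · simp
  · have hpp := Nat.prime_iff_prime_int.1 hp
    refine card_biUnion_le.trans ?_
    calc ∑ j : Fin ℓ, (((range p).filter
          (fun e : ℕ => (p : ℤ) ∣ r j * ((e : ℤ) - 1) + r i)).image (fun e : ℕ => (e : ℤ))).card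
        ≤ ∑ _j : Fin ℓ, 1 := by
          refine sum_le_sum fun j _ => card_image_le.trans ?_
          rw [card_le_one]
          intro e he f hf
          rw [mem_filter, mem_range] at he hf
          have hpj : ¬ (p : ℤ) ∣ (r j : ℤ) := by
            intro h1
            apply h
            have h2 := dvd_sub he.2 (h1.mul_right ((e : ℤ) - 1))
            rw [add_sub_cancel_left] at h2
            exact Int.natCast_dvd_natCast.1 h2
          have h1 : (p : ℤ) ∣ r j * ((e : ℤ) - f) := by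
            have := dvd_sub he.2 hf.2
            rwa [show (r j : ℤ) * (e - 1) + r i - (r j * (f - 1) + r i) = r j * (e - f) by ring] at this
          exact eq_of_dvd_sub he.1 hf.1 ((hpp.dvd_or_dvd h1).resolve_left hpj)
      _ = ℓ := by simp

/-- primes `≡ 1` modulo `q₀ a ^ 2` for all `a` up to a power of the logarithm -/
theorem primes_uniform : ∃ k : ℕ, ∀ (q₀ : ℕ) (δ : ℝ) (A : ℕ), 0 < q₀ → 0 < δ → ∃ x₀ : ℝ, ∀ x : ℝ,
    x₀ ≤ x → ∀ a : ℕ, 0 < a → (a : ℝ) ≤ Real.log x ^ A → (a : ℝ) ≤ x ^ δ ∧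
      ∃ p : ℕ, p.Prime ∧ x ^ δ < p ∧ (p : ℝ) ≤ x ^ (k * δ) ∧ p ≡ 1 [MOD q₀ * a ^ 2] := by
  obtain ⟨K, c, hK, hc, hpage⟩ := Pool.Agent.Y866.LK.page
  refine ⟨2 * K, fun q₀ δ A hq₀ hδ => ?_⟩
  obtain ⟨z₀, hz₀⟩ := hpage (2 * A + 1)
  have l1 : ∀ᶠ x : ℝ in Filter.atTop, ((z₀ : ℝ) + 2) ≤ x ^ δ :=
    (tendsto_rpow_atTop hδ).eventually_ge_atTop _
  have l2 : ∀ᶠ x : ℝ in Filter.atTop, (1 : ℝ) ≤ Real.log x :=
    Real.tendsto_log_atTop.eventually_ge_atTop _
  have l3 : ∀ᶠ x : ℝ in Filter.atTop, (q₀ : ℝ) + 1 ≤ δ ^ (2 * A + 1) * Real.log x :=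
    (Real.tendsto_log_atTop.const_mul_atTop (by positivity)).eventually_ge_atTop _
  have l4 : ∀ᶠ x : ℝ in Filter.atTop, Real.log x ^ (32 * A) ≤ x ^ (δ / 2) := by
    have h1 := (isLittleO_log_rpow_atTop (r := δ / (2 * (32 * A + 1))) (by positivity)).bound
      (show (0 : ℝ) < 1 by norm_num)
    filter_upwards [h1, Filter.eventually_ge_atTop (1 : ℝ)] with x hx hx1
    rw [Real.norm_of_nonneg (Real.log_nonneg hx1), Real.norm_of_nonneg (by positivity), one_mul] at hx
    calc Real.log x ^ (32 * A) ≤ (x ^ (δ / (2 * (32 * A + 1)))) ^ (32 * A) :=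
          pow_le_pow_left₀ (Real.log_nonneg hx1) hx _
      _ = x ^ (δ / (2 * (32 * A + 1)) * (32 * A)) := by
          rw [← Real.rpow_natCast, ← Real.rpow_mul (by linarith)]
          push_cast
          rfl
      _ ≤ x ^ (δ / 2) := by
          apply Real.rpow_le_rpow_of_exponent_le hx1
          rw [div_mul_eq_mul_div, div_le_div_iff₀ (by positivity) (by norm_num)]
          nlinarith
  have l5 : ∀ᶠ x : ℝ in Filter.atTop, ((q₀ ^ 16 : ℕ) : ℝ) ≤ x ^ (δ / 2) :=
    (tendsto_rpow_atTop (by positivity)).eventually_ge_atTop _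
  obtain ⟨x₀, hx₀⟩ := Filter.eventually_atTop.mp (l1.and (l2.and (l3.and (l4.and l5))))
  refine ⟨max x₀ 1, fun x hx a ha hax => ?_⟩
  obtain ⟨h1, h2, h3, h4, h5⟩ := hx₀ x ((le_max_left _ _).trans hx)
  have hx1 : 1 ≤ x := (le_max_right _ _).trans hx
  have hx0 : 0 < x := by linarith
  have har : (1 : ℝ) ≤ a := by exact_mod_cast ha
  have hlog0 : 0 ≤ Real.log x := by linarith
  have hxx : x ^ (δ / 2) * x ^ (δ / 2) = x ^ δ := by
    rw [← Real.rpow_add hx0]; congr 1; ring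
  have hxh : 1 ≤ x ^ (δ / 2) := Real.one_le_rpow hx1 (by positivity)
  -- the modulus
  have ha32 : (a : ℝ) ^ 32 ≤ x ^ (δ / 2) := by
    calc (a : ℝ) ^ 32 ≤ (Real.log x ^ A) ^ 32 := pow_le_pow_left₀ (by linarith) hax _
      _ = Real.log x ^ (32 * A) := by rw [← pow_mul]; congr 1; ring
      _ ≤ _ := h4
  have hq16 : (((q₀ * a ^ 2) ^ 16 : ℕ) : ℝ) ≤ x ^ δ := by
    calc (((q₀ * a ^ 2) ^ 16 : ℕ) : ℝ) = ((q₀ ^ 16 : ℕ) : ℝ) * (a : ℝ) ^ 32 := by push_cast; ring
      _ ≤ x ^ (δ / 2) * x ^ (δ / 2) := mul_le_mul h5 ha32 (by positivity) (by positivity)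
      _ = x ^ δ := hxx
  have hax' : (a : ℝ) ≤ x ^ δ := by
    calc (a : ℝ) = (a : ℝ) ^ 1 := (pow_one _).symm
      _ ≤ (a : ℝ) ^ 32 := pow_le_pow_right₀ har (by norm_num)
      _ ≤ x ^ (δ / 2) := ha32
      _ ≤ x ^ (δ / 2) * x ^ (δ / 2) := le_mul_of_one_le_left (by positivity) hxh
      _ = x ^ δ := hxx
  refine ⟨hax', ?_⟩
  set z : ℕ := ⌈x ^ δ⌉₊ with hz
  have hzx : x ^ δ ≤ z := Nat.le_ceil _
  have hzx' : (z : ℝ) < x ^ δ + 1 := Nat.ceil_lt_add_one (by positivity)
  have hzz : z₀ ≤ z := by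
    have : (z₀ : ℝ) ≤ z := by linarith
    exact_mod_cast this
  obtain ⟨q₁, hq₁, hq₁l, hpr⟩ := hz₀ z hzz
  have hm0 : 0 < q₀ * a ^ 2 := by positivity
  have hndvd : ¬ q₁ ∣ q₀ * a ^ 2 := by
    intro hd
    have g1 : (q₁ : ℝ) ≤ ((q₀ * a ^ 2 : ℕ) : ℝ) := by exact_mod_cast Nat.le_of_dvd hm0 hd
    have g2 : ((q₀ * a ^ 2 : ℕ) : ℝ) ≤ q₀ * Real.log x ^ (2 * A) := by
      push_cast
      apply mul_le_mul_of_nonneg_left _ (Nat.cast_nonneg _)
      calc (a : ℝ) ^ 2 ≤ (Real.log x ^ A) ^ 2 := pow_le_pow_left₀ (by linarith) hax _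
        _ = Real.log x ^ (2 * A) := by rw [← pow_mul]; congr 1; ring
    have g3 : δ * Real.log x ≤ Real.log z := by
      rw [← Real.log_rpow hx0]
      exact Real.log_le_log (by positivity) hzx
    have g4 : (δ * Real.log x) ^ (2 * A + 1) ≤ Real.log z ^ (2 * A + 1) :=
      pow_le_pow_left₀ (by positivity) g3 _
    have g5 : (δ * Real.log x) ^ (2 * A + 1) =
        (δ ^ (2 * A + 1) * Real.log x) * Real.log x ^ (2 * A) := by
      rw [mul_pow, pow_succ (Real.log x)]
      ring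
    have g6 : (q₀ : ℝ) * Real.log x ^ (2 * A) ≤
        (δ ^ (2 * A + 1) * Real.log x) * Real.log x ^ (2 * A) :=
      mul_le_mul_of_nonneg_right (by linarith) (by positivity)
    linarith
  have hsum := hpr (q₀ * a ^ 2) 1 hm0 (by
    have : (((q₀ * a ^ 2) ^ 16 : ℕ) : ℝ) ≤ z := hq16.trans hzx
    exact_mod_cast this) hndvd (Nat.coprime_one_left _)
  have hpos : 0 < ∑ p ∈ (Ioc z (z ^ K)).filter (fun p => p.Prime ∧ p ≡ 1 [MOD q₀ * a ^ 2]),
      (1 : ℝ) / p := by
    refine lt_of_lt_of_le ?_ hsum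
    have : (0 : ℝ) < ((q₀ * a ^ 2).totient : ℝ) := by exact_mod_cast Nat.totient_pos.2 hm0
    positivity
  obtain ⟨p, hp⟩ : ((Ioc z (z ^ K)).filter (fun p => p.Prime ∧ p ≡ 1 [MOD q₀ * a ^ 2])).Nonempty := by
    by_contra hcon
    rw [not_nonempty_iff_eq_empty] at hcon
    rw [hcon] at hpos
    simp at hpos
  rw [mem_filter, mem_Ioc] at hp
  obtain ⟨⟨p1, p2⟩, p3, p4⟩ := hp
  refine ⟨p, p3, ?_, ?_, p4⟩
  · exact lt_of_le_of_lt hzx (by exact_mod_cast p1)
  · have g1 : (z : ℝ) ≤ (x ^ δ) ^ 2 := by nlinarith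
    calc (p : ℝ) ≤ ((z ^ K : ℕ) : ℝ) := by exact_mod_cast p2
      _ = (z : ℝ) ^ K := by push_cast; rfl
      _ ≤ ((x ^ δ) ^ 2) ^ K := pow_le_pow_left₀ (Nat.cast_nonneg _) g1 K
      _ = x ^ (((2 * K : ℕ) : ℝ) * δ) := by
        rw [← pow_mul, ← Real.rpow_natCast (x ^ δ), ← Real.rpow_mul hx0.le, mul_comm δ]

/-- **Almost prime tuples `q r_j + 1` in all short intervals, with arbitrary labels, uniformly.** There is
an absolute `k` with the following property. Let `ℓ`, `N ≥ 1`, `1 - 1 / N < θ ≤ 1`, `ε > 0`, `E` and `A` be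
given. There are `R`, `q₀` and `δ > 0` such that for all large `x`:

(1) for all `1 ≤ a ≤ (log x) ^ A` we have `a ≤ x ^ δ`, and there is a prime `p ≡ 1` modulo `q₀ a ^ 2` with
`x ^ δ < p ≤ x ^ (k δ)`;

(2) let `r_1, ..., r_ℓ` be positive integers `≤ x ^ E`, and let `r_i ≤ x ^ δ`. Let `G` be a finite abelian
group with at most `N` elements, or of exponent `2` with at most `2 ^ (N - 1)` elements, and let `Φ p ∈ G`
be arbitrary labels of the primes such that the labels of the primes `p ≡ 1` modulo `q₀ r_i ^ 2` with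
`x ^ δ < p ≤ x ^ (k δ)` generate `G`. Then for EVERY `g` in `G` at least `x ^ (1 - N (1 - θ) - ε)` integers
`q` in `(x, x + x ^ θ]` are such that all the `q r_j + 1` are products of at most `R` primes, all larger
than `x ^ δ`, and the sum of the labels of the prime factors of `q r_i + 1` (with multiplicity) is `g`.

For example (`G = ZMod M`, `M ≤ N`, `Φ = 1`) for all `r_j ≤ b log x` and all `i` the number of prime
factors of `q r_i + 1` lies in any given class modulo `M`, see `result_Omega`. -/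
theorem result : ∃ k : ℕ, ∀ (ℓ N A : ℕ), 1 ≤ N → ∀ (θ ε E : ℝ), 1 - 1 / (N : ℝ) < θ → θ ≤ 1 → 0 < ε →
    ∃ (R q₀ : ℕ) (δ : ℝ), 0 < q₀ ∧ 0 < δ ∧ ∃ x₀ : ℝ, ∀ x : ℝ, x₀ ≤ x →
      (∀ a : ℕ, 0 < a → (a : ℝ) ≤ Real.log x ^ A → (a : ℝ) ≤ x ^ δ ∧
        ∃ p : ℕ, p.Prime ∧ x ^ δ < p ∧ (p : ℝ) ≤ x ^ (k * δ) ∧ p ≡ 1 [MOD q₀ * a ^ 2]) ∧
      ∀ r : Fin ℓ → ℕ, (∀ j, 0 < r j ∧ (r j : ℝ) ≤ x ^ E) → ∀ i : Fin ℓ, (r i : ℝ) ≤ x ^ δ →
      ∀ (G : Type) [AddCommGroup G] [Fintype G],
        (Fintype.card G ≤ N ∨ (∀ z : G, z + z = 0) ∧ Fintype.card G ≤ 2 ^ (N - 1)) →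
        ∀ Φ : ℕ → G, AddSubgroup.closure {g : G | ∃ p : ℕ, p.Prime ∧ x ^ δ < p ∧
          (p : ℝ) ≤ x ^ (k * δ) ∧ p ≡ 1 [MOD q₀ * r i ^ 2] ∧ Φ p = g} = ⊤ →
        ∀ g : G, x ^ (1 - N * (1 - θ) - ε) ≤ ({q : ℕ | q ∈ AlmostPrimeTuples r θ δ R x ∧
          ((q * r i + 1).primeFactorsList.map Φ).sum = g}.ncard : ℝ) := by
  classical
  obtain ⟨k, hk⟩ := primes_uniform
  refine ⟨k, fun ℓ N A hN θ ε E hθ hθ1 hε => ?_⟩
  obtain ⟨q₀, δ, hq, hδ, x₁, hx₁, hmain⟩ := real_versionU k ℓ N hN θ ε hθ hθ1 hε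
  obtain ⟨x₂, hx₂⟩ := hk q₀ δ A hq hδ
  refine ⟨⌈(max E 0 + 3) / δ⌉₊, q₀, δ, hq, hδ, max (max x₁ x₂) 2, ?_⟩
  intro x hx
  have hxx₁ : x₁ ≤ x := ((le_max_left _ _).trans (le_max_left _ _)).trans hx
  have hxx₂ : x₂ ≤ x := ((le_max_right _ _).trans (le_max_left _ _)).trans hx
  have hx2 : (2 : ℝ) ≤ x := (le_max_right _ _).trans hx
  have hx1 : 1 ≤ x := by linarith
  have hx0 : 0 < x := by linarith
  have hxgt : 1 < x := by linarith
  have hxθ : x ^ θ ≤ x := by
    calc x ^ θ ≤ x ^ (1 : ℝ) := Real.rpow_le_rpow_of_exponent_le hx1 hθ1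
      _ = x := Real.rpow_one x
  refine ⟨hx₂ x hxx₂, ?_⟩
  intro r hr i hri G _ _ hG Φ hΦ g
  have hri0 : 0 < r i := (hr i).1
  have key := hmain x hxx₁ (r i) hri0 hri (Bd r i) (fun p hp => Bd_card r i p hp) (by
    intro p hp
    refine ⟨0, ?_, ?_⟩
    · intro hd
      have h1 : (p : ℤ) ∣ ((1 : ℕ) : ℤ) := by simpa using hd
      exact hp.one_lt.ne' (Nat.dvd_one.1 (Int.natCast_dvd_natCast.1 h1))
    · intro e he hd
      unfold Bd at he
      split_ifs at he with h1
      · simp at he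
      · rw [mem_biUnion] at he
        obtain ⟨j, -, he⟩ := he
        rw [mem_image] at he
        obtain ⟨e', he', rfl⟩ := he
        rw [mem_filter] at he'
        apply h1
        have h2 : (p : ℤ) ∣ 1 - (e' : ℤ) := by simpa using hd
        have h3 : (p : ℤ) ∣ (r i : ℤ) := by
          have := dvd_add he'.2 (h2.mul_left (r j : ℤ))
          rwa [show (r j : ℤ) * (e' - 1) + r i + r j * (1 - e') = r i by ring] at this
        exact Int.natCast_dvd_natCast.1 h3) G hG (lab Φ) (addG_lab Φ) (by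
    intro H hH
    by_contra hcon
    apply hH
    rw [← hΦ]
    symm
    apply le_antisymm
    · rw [AddSubgroup.closure_le]
      rintro g' ⟨p, hp, h1, h2, h3, rfl⟩
      by_contra h4
      refine hcon ⟨p, hp, h1, h2, ?_, ?_⟩
      · have h5 := (Nat.modEq_iff_dvd.1 h3.symm)
        simpa using h5
      · rw [lab_prime Φ p hp]; exact h4
    · rw [hΦ]; exact le_top) g
  refine key.trans (Nat.cast_le.2 ?_)
  refine Set.ncard_le_ncard_of_injOn Int.toNat ?_ ?_ ?_
  · rintro z ⟨h1, h2, h3, h4, h5, h6⟩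
    have hz0 : (0 : ℝ) < z := by linarith
    have hz1 : 0 < z := by exact_mod_cast hz0
    obtain ⟨q, rfl⟩ := Int.eq_ofNat_of_zero_le hz1.le
    simp only [Int.toNat_natCast] at *
    have hq1 : x < (q : ℝ) := by exact_mod_cast h1
    have hq2 : (q : ℝ) ≤ x + x ^ θ := by exact_mod_cast h2
    have hq3 : (q : ℝ) ≤ 2 * x := by linarith
    have hiq : r i ∣ q := Int.natCast_dvd_natCast.1 h5
    have hpr : ∀ j, ∀ p : ℕ, p.Prime → p ∣ q * r j + 1 → x ^ δ < p := by
      intro j p hp hd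
      by_contra hcon
      push Not at hcon
      by_cases hpi : p ∣ r i
      · have g1 : p ∣ q * r j := (hpi.trans hiq).mul_right _
        exact hp.one_lt.ne' (Nat.dvd_one.1 ((Nat.dvd_add_right g1).1 hd))
      · have h7 := h4 p hp hcon ((((r i * q + 1) % p : ℕ)) : ℤ) (by
          unfold Bd
          rw [if_neg hpi, mem_biUnion]
          refine ⟨j, mem_univ _, mem_image.2 ⟨(r i * q + 1) % p, ?_, rfl⟩⟩
          rw [mem_filter, mem_range]
          refine ⟨Nat.mod_lt _ hp.pos, ?_⟩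
          have g2 : (p : ℤ) ∣ ((r i * q + 1 : ℕ) : ℤ) - (((r i * q + 1) % p : ℕ) : ℤ) := by
            rw [Int.natCast_mod]
            exact Int.dvd_self_sub_emod
          have g3 : (p : ℤ) ∣ ((q * r j + 1 : ℕ) : ℤ) := Int.natCast_dvd_natCast.2 hd
          have e : (r j : ℤ) * ((((r i * q + 1) % p : ℕ) : ℤ) - 1) + r i =
              r i * ((q * r j + 1 : ℕ) : ℤ) -
              r j * (((r i * q + 1 : ℕ) : ℤ) - (((r i * q + 1) % p : ℕ) : ℤ)) := by
            push_cast; ring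
          rw [e]
          exact dvd_sub (g3.mul_left _) (g2.mul_left _))
        apply h7
        have g2 : (p : ℤ) ∣ ((r i * q + 1 : ℕ) : ℤ) - (((r i * q + 1) % p : ℕ) : ℤ) := by
          rw [Int.natCast_mod]
          exact Int.dvd_self_sub_emod
        simpa using g2
    refine ⟨⟨hq1, hq2, fun j => ⟨?_, hpr j⟩⟩, ?_⟩
    · have g1 := pow_length_le (x ^ δ) (by positivity) (q * r j + 1).primeFactorsList (by
        intro p hp
        exact (hpr j p (Nat.prime_of_mem_primeFactorsList hp)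
          (Nat.dvd_of_mem_primeFactorsList hp)).le)
      rw [Nat.prod_primeFactorsList (by omega)] at g1
      have g2 : ((q * r j + 1 : ℕ) : ℝ) ≤ x ^ (max E 0 + 3) := by
        have c1 : (r j : ℝ) ≤ x ^ (max E 0) :=
          (hr j).2.trans (Real.rpow_le_rpow_of_exponent_le hx1 (le_max_left _ _))
        have c2 : 1 ≤ x ^ (max E 0) := Real.one_le_rpow hx1 (le_max_right _ _)
        have c3 : x ^ (max E 0 + 3) = x ^ (max E 0) * x ^ 3 := by
          rw [Real.rpow_add hx0, show (3 : ℝ) = ((3 : ℕ) : ℝ) by norm_num, Real.rpow_natCast]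
        rw [c3]
        push_cast
        have c4 : (q : ℝ) * r j ≤ 2 * x * x ^ (max E 0) :=
          mul_le_mul hq3 c1 (by positivity) (by positivity)
        have c5 : 3 * x ≤ x ^ 3 := by
          have c6 : (4 : ℝ) ≤ x ^ 2 := by nlinarith
          have c7 := mul_le_mul_of_nonneg_right c6 hx0.le
          have c8 : x ^ 3 = x ^ 2 * x := by ring
          linarith
        calc (q : ℝ) * r j + 1 ≤ 2 * x * x ^ (max E 0) + x * x ^ (max E 0) := by nlinarith
          _ = x ^ (max E 0) * (3 * x) := by ring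
          _ ≤ _ := mul_le_mul_of_nonneg_left c5 (by positivity)
      have g3 : x ^ (δ * ((q * r j + 1).primeFactorsList.length : ℝ)) ≤ x ^ (max E 0 + 3) := by
        rw [Real.rpow_mul hx0.le, Real.rpow_natCast]
        exact g1.trans g2
      have g4 := (Real.rpow_le_rpow_left_iff hxgt).1 g3
      have g5 : ((q * r j + 1).primeFactorsList.length : ℝ) ≤ (max E 0 + 3) / δ := by
        rw [le_div_iff₀ hδ]; linarith
      exact_mod_cast g5.trans (Nat.le_ceil _)
    · have e : (r i : ℤ) * ((q : ℕ) : ℤ) + 1 = ((q * r i + 1 : ℕ) : ℤ) := by push_cast; ring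
      have h7 : lab Φ ((r i : ℤ) * ((q : ℕ) : ℤ) + 1) = g := h6
      rw [e] at h7
      exact h7
  · rintro z ⟨h1, -⟩ z' ⟨h1', -⟩ h
    have hn0 : (0 : ℝ) < z := by linarith
    have hn1 : 0 < z := by exact_mod_cast hn0
    have hn0' : (0 : ℝ) < z' := by linarith
    have hn1' : 0 < z' := by exact_mod_cast hn0'
    have : (z.toNat : ℤ) = z'.toNat := by exact_mod_cast h
    rwa [Int.toNat_of_nonneg hn1.le, Int.toNat_of_nonneg hn1'.le] at this
  · apply (Set.finite_Iic ⌊x + x ^ θ⌋₊).subset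
    rintro z ⟨⟨h1, h2, -⟩, -⟩
    exact Nat.le_floor h2

/-- **The number of prime factors of any member, in any class modulo `M`, in the range of the problem.**
The special case of `result` with `G = ZMod M` and `Φ = 1`: for all large `x`, all positive integers
`r_1, ..., r_ℓ ≤ b log x`, all `i` and all `t`. -/
theorem result_Omega (ℓ M : ℕ) (hM : 1 ≤ M) (b θ ε : ℝ) (hθ : 1 - 1 / (M : ℝ) < θ) (hθ1 : θ ≤ 1)
    (hε : 0 < ε) :
    ∃ (R : ℕ) (δ : ℝ), 0 < δ ∧ ∃ x₀ : ℝ, ∀ x : ℝ, x₀ ≤ x →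
      ∀ r : Fin ℓ → ℕ, (∀ j, 0 < r j ∧ (r j : ℝ) ≤ b * Real.log x) → ∀ (i : Fin ℓ) (t : ℕ),
      x ^ (1 - M * (1 - θ) - ε) ≤ ({q : ℕ | q ∈ AlmostPrimeTuples r θ δ R x ∧
          (q * r i + 1).primeFactorsList.length ≡ t [MOD M]}.ncard : ℝ) := by
  obtain ⟨k, hk⟩ := result
  obtain ⟨R, q₀, δ, -, hδ, x₁, h⟩ := hk ℓ M 2 hM θ ε 1 hθ hθ1 hε
  have l1 : ∀ᶠ x : ℝ in Filter.atTop, b ≤ Real.log x := Real.tendsto_log_atTop.eventually_ge_atTop _
  have l2 : ∀ᶠ x : ℝ in Filter.atTop, (0 : ℝ) ≤ Real.log x :=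
    Real.tendsto_log_atTop.eventually_ge_atTop _
  have l3 : ∀ᶠ x : ℝ in Filter.atTop, Real.log x ^ 2 ≤ x := by
    have h4 := (Real.isLittleO_pow_log_id_atTop (n := 2)).bound (show (0 : ℝ) < 1 by norm_num)
    filter_upwards [h4, Filter.eventually_ge_atTop (1 : ℝ)] with x hx hx1
    rw [Real.norm_of_nonneg (by positivity), id, Real.norm_of_nonneg (by linarith), one_mul] at hx
    exact hx
  obtain ⟨x₂, hx₂⟩ := Filter.eventually_atTop.mp (l1.and (l2.and l3))
  refine ⟨R, δ, hδ, max x₁ x₂, fun x hx r hr i t => ?_⟩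
  obtain ⟨h1, h2, h3⟩ := hx₂ x ((le_max_right _ _).trans hx)
  obtain ⟨g1, g2⟩ := h x ((le_max_left _ _).trans hx)
  have hr2 : ∀ j, (r j : ℝ) ≤ Real.log x ^ 2 := by
    intro j
    refine (hr j).2.trans ?_
    rw [pow_two]
    exact mul_le_mul_of_nonneg_right h1 h2
  obtain ⟨g3, p, hp, hp1, hp2, hp3⟩ := g1 (r i) (hr i).1 (hr2 i)
  have : NeZero M := ⟨by omega⟩
  have key := g2 r (fun j => ⟨(hr j).1, by rw [Real.rpow_one]; exact (hr2 j).trans h3⟩) i g3
    (ZMod M) (Or.inl (by rw [ZMod.card])) (fun _ => 1) (by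
    rw [eq_top_iff]
    intro z _
    have hz : z = (z.val : ℕ) • (1 : ZMod M) := by
      rw [nsmul_eq_mul, mul_one, ZMod.natCast_zmod_val]
    have hmem : (1 : ZMod M) ∈ {g : ZMod M | ∃ p : ℕ, p.Prime ∧ x ^ δ < p ∧
        (p : ℝ) ≤ x ^ (k * δ) ∧ p ≡ 1 [MOD q₀ * r i ^ 2] ∧ (fun _ : ℕ => (1 : ZMod M)) p = g} :=
      ⟨p, hp, hp1, hp2, hp3, rfl⟩
    rw [hz]
    exact AddSubgroup.nsmul_mem _ (AddSubgroup.subset_closure hmem) _)
    (t : ZMod M)
  refine key.trans (le_of_eq ?_)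
  congr 2
  ext n
  simp only [Set.mem_ofPred_eq]
  refine and_congr_right fun _ => ?_
  rw [List.map_const', List.sum_replicate, nsmul_eq_mul, mul_one]
  exact ZMod.natCast_eq_natCast_iff _ _ _

end Pool.Agent.Results.MP_d018b2_nt.LabelledMembers
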