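import Mathlib
import Pool.Agent.H23.BS

/-!
# A quarter of the tuples from every set of boundedly many `r_j ≤ (log x) ^ C`, uniformly, at every scale

`N x T` is the counting function of the problem for the set `T` of the `r_j`.

For all `k ≥ 1` and `ε > 0` there are numbers `n₀` and `B` such that for every `C`, all large `x` and EVERY set
`A` of at least `n₀` positive integers `r ≤ (log x) ^ C` (for instance `r ≤ b log x`), the proportion
`4 ^ (-k) - ε` of the `(k + 1)`-element subsets `T` of `A` have `N x T ≥ x / (log x) ^ B`: this is the uniformity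
asked for in the problem, for a bounded number of forms. (Earlier results of this kind for growing `r_j` needed
sets `A` with at least `λ log x` elements.)

The proof combines the coloured lower bound of Maynard's method for the forms `r n + 1`, uniform in
`r ≤ (log x) ^ C` (`Pool.Agent.NH16.QL.low_holds` of the starting library), used for `4 T` classes in order to hit a
quarter of `T` classes for every `T`, with a blow-up argument for the complex of the good sets
(`Pool.Agent.W25.QL.main_gen`, `count_pow`).
-/

set_option autoImplicit false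

namespace Pool.Agent.Results.MP_d018b2_nt.QuarterOfBoundedSets

open Finset

/-- the number of `x ≤ q < 2x` with all `q r + 1`, `r ∈ T`, prime -/
def N (x : ℕ) (T : Finset ℕ) : ℕ := ((Ico x (2 * x)).filter (fun q => ∀ r ∈ T, (q * r + 1).Prime)).card

open Classical in
/-- For all `k` and `ε > 0` there are `n₀` and `B` such that for every `C` and all large `x`, for every set `A` of
at least `n₀` positive integers `r ≤ (log x) ^ C`, at least the proportion `4 ^ (-k) - ε` of the `(k + 1)`-element
subsets `T` of `A` have `N x T ≥ x / (log x) ^ B`. -/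
theorem result (k : ℕ) (ε : ℝ) (hε : 0 < ε) : ∃ n₀ B : ℕ, ∀ C : ℝ, ∃ x₀ : ℕ, ∀ x : ℕ, x₀ ≤ x →
    ∀ A : Finset ℕ, (∀ r ∈ A, 1 ≤ r ∧ (r : ℝ) ≤ Real.log x ^ C) → n₀ ≤ A.card →
      ((1 / 4 : ℝ) ^ k - ε) * (A.card.choose (k + 1) : ℝ) ≤
        (((A.powersetCard (k + 1)).filter (fun T => (x : ℝ) / Real.log x ^ B ≤ N x T)).card : ℝ) :=
  Pool.Agent.H23.BS.main k ε hε

end Pool.Agent.Results.MP_d018b2_nt.QuarterOfBoundedSets
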